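import Mathlib
import Pool.Agent.Q3.FracRev.Main

/-!
# An oriented graph on 72 vertices with multiple state transfer on six vertices
-/

set_option autoImplicit false

open Finset

namespace Pool.Agent.Q3.Mst

/-- the vertices: `a_0, …, a_5` (`inl j`), eighteen vertices `L` (`inr (inl k)`) and three classes
`E_0, E_1, E_2` of sixteen vertices (`inr (inr (p, u, w))`) -/
abbrev V : Type := Fin 6 ⊕ (Fin 18 ⊕ (Fin 3 × Fin 4 × Fin 4))

/-- the arcs: `a_j → a_{j+1}`, `a_j → a_{j+2}`; `a_j → L` for `j` even and `L → a_j` for `j` odd;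
`a_j → E_p` if `j ≡ p` and `E_p → a_j` if `j ≡ p + 1` modulo 3; `(p+1, u, w) → (p, u, w')` -/
def arcB : V → V → Bool
  | .inl j, .inl k => k == j + 1 || k == j + 2
  | .inl j, .inr (.inl _) => j.val % 2 == 0
  | .inr (.inl _), .inl j => j.val % 2 == 1
  | .inl j, .inr (.inr (p, _, _)) => j.val % 3 == p.val
  | .inr (.inr (p, _, _)), .inl j => j.val % 3 == (p + 1).val
  | .inr (.inr (p, u, _)), .inr (.inr (q, u', _)) => p == q + 1 && u == u'
  | _, _ => false

theorem arcB_asymm : ∀ v w : V, arcB v w = true → arcB w v = false := by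
  decide +kernel

/-- the entry at `(v, w)` of the transpose of the skew adjacency matrix -/
def ent (v w : V) : ℤ := if arcB w v = true then 1 else if arcB v w = true then -1 else 0

/-- the cell of a vertex -/
def cell : V → Fin 10
  | .inl j => ⟨j.val, by omega⟩
  | .inr (.inl _) => 6
  | .inr (.inr (p, _, _)) => ⟨7 + p.val, by omega⟩

/-- the quotient matrix -/
def B : Fin 10 → Fin 10 → ℤ :=
  ![![0, -1, -1, 0, 1, 1, -18, -16, 0, 16],
    ![1, 0, -1, -1, 0, 1, 18, 16, -16, 0],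
    ![1, 1, 0, -1, -1, 0, -18, 0, 16, -16],
    ![0, 1, 1, 0, -1, -1, 18, -16, 0, 16],
    ![-1, 0, 1, 1, 0, -1, -18, 16, -16, 0],
    ![-1, -1, 0, 1, 1, 0, 18, 0, 16, -16],
    ![1, -1, 1, -1, 1, -1, 0, 0, 0, 0],
    ![1, -1, 0, 1, -1, 0, 0, 0, 4, -4],
    ![0, 1, -1, 0, 1, -1, 0, -4, 0, 4],
    ![-1, 0, 1, -1, 0, 1, 0, 4, -4, 0]]

theorem count : ∀ v : V, ∀ c : Fin 10,
    ∑ w : V, (if cell w = c then ent v w else 0) = B (cell v) c := by
  decide +kernel

/-- the transpose of the skew adjacency matrix -/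
def A : Matrix V V ℂ := fun v w => (ent v w : ℂ)

/-- the action on functions of the cells -/
noncomputable def op (f : Fin 10 → ℂ) : Fin 10 → ℂ := fun c => ∑ d, (B c d : ℂ) * f d

open Matrix in
theorem mulVec_lift (f : Fin 10 → ℂ) : A *ᵥ (f ∘ cell) = (op f) ∘ cell := by
  funext v
  have h1 : (A *ᵥ (f ∘ cell)) v =
      ∑ w : V, ∑ d : Fin 10, (((if cell w = d then ent v w else 0 : ℤ) : ℂ)) * f d := by
    simp only [Matrix.mulVec, dotProduct, A, Function.comp_apply]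
    apply Finset.sum_congr rfl
    intro w _
    rw [Finset.sum_eq_single (cell w)]
    · simp
    · intro d _ hd
      simp [Ne.symm hd]
    · simp
  rw [h1, Finset.sum_comm]
  simp only [Function.comp_apply, op]
  apply Finset.sum_congr rfl
  intro d _
  rw [← Finset.sum_mul, ← Int.cast_sum, count]

/-- the vectors `y_c`: values on the six singletons -/
def six (x : Fin 6 → ℂ) : Fin 10 → ℂ := ![x 0, x 1, x 2, x 3, x 4, x 5, 0, 0, 0, 0]

/-- `y_0` -/
def y0 : Fin 10 → ℂ := six ![1, 1, 1, 1, 1, 1]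

/-- `y_3` -/
def y3 : Fin 10 → ℂ := six ![1, -1, 1, -1, 1, -1]

/-- `y_1` (for `s = i √3`) and `y_{-1}` (for `s = - i √3`) -/
noncomputable def y1 (s : ℂ) : Fin 10 → ℂ :=
  six ![1, (1 - s) / 2, (-1 - s) / 2, -1, (-1 + s) / 2, (1 + s) / 2]

/-- `y_2` (for `s = i √3`) and `y_{-2}` (for `s = - i √3`) -/
noncomputable def y2 (s : ℂ) : Fin 10 → ℂ :=
  six ![1, (-1 - s) / 2, (-1 + s) / 2, 1, (-1 - s) / 2, (-1 + s) / 2]

theorem op_y0 : op y0 = 0 := by
  funext c
  fin_cases c <;> simp [op, B, y0, six, Fin.sum_univ_succ]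

theorem op_y1 {s : ℂ} (hs : s ^ 2 = -3) : op (y1 s) = (2 * s) • y1 s := by
  funext c
  fin_cases c <;> simp [op, B, y1, six, Fin.sum_univ_succ] <;> ring_nf <;> (try rw [hs]) <;>
    (try ring)

theorem op_y3 : op (op y3) = (-108 : ℂ) • y3 := by
  have h : op y3 = ![0, 0, 0, 0, 0, 0, 6, 0, 0, 0] := by
    funext c
    fin_cases c <;> simp [op, B, y3, six, Fin.sum_univ_succ] <;> norm_num
  rw [h]
  funext c
  fin_cases c <;> simp [op, B, y3, six, Fin.sum_univ_succ] <;> norm_num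

theorem op_y2 {s : ℂ} (hs : s ^ 2 = -3) :
    op (op (y2 s)) = (-4 * s) • op (y2 s) + (-96 : ℂ) • y2 s := by
  have h : op (y2 s) = ![0, 0, 0, 0, 0, 0, 0, 3 + s, -2 * s, -3 + s] := by
    funext c
    fin_cases c <;> simp [op, B, y2, six, Fin.sum_univ_succ] <;> ring_nf
  rw [h]
  funext c
  fin_cases c <;> simp [op, B, y2, six, Fin.sum_univ_succ] <;> ring_nf <;> (try rw [hs]) <;>
    (try ring)

/-! ### matrix exponentials -/

open Matrix in
theorem exp_quad {W : Type*} [Fintype W] [DecidableEq W] (M : Matrix W W ℂ) (y : W → ℂ)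
    (p q w : ℂ) (hne : p ≠ q)
    (h : M *ᵥ (M *ᵥ y) = (p + q) • (M *ᵥ y) - (p * q) • y)
    (hp : Complex.exp p = w) (hq : Complex.exp q = w) :
    (NormedSpace.exp M) *ᵥ y = w • y := by
  have e1 : M *ᵥ (M *ᵥ y - q • y) = p • (M *ᵥ y - q • y) := by
    rw [Matrix.mulVec_sub, Matrix.mulVec_smul, h]
    funext x
    simp only [Pi.sub_apply, Pi.smul_apply, smul_eq_mul]
    ring
  have e2 : M *ᵥ (M *ᵥ y - p • y) = q • (M *ᵥ y - p • y) := by
    rw [Matrix.mulVec_sub, Matrix.mulVec_smul, h]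
    funext x
    simp only [Pi.sub_apply, Pi.smul_apply, smul_eq_mul]
    ring
  have h1 := FracRev.exp_mulVec_of_eigen M _ p e1
  have h2 := FracRev.exp_mulVec_of_eigen M _ q e2
  rw [hp] at h1
  rw [hq] at h2
  have hy : y = (p - q)⁻¹ • ((M *ᵥ y - q • y) - (M *ᵥ y - p • y)) := by
    have : (M *ᵥ y - q • y) - (M *ᵥ y - p • y) = (p - q) • y := by
      funext x
      simp only [Pi.sub_apply, Pi.smul_apply, smul_eq_mul]
      ring
    rw [this, smul_smul, inv_mul_cancel₀ (sub_ne_zero.mpr hne), one_smul]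
  conv_lhs => rw [hy]
  conv_rhs => rw [hy]
  rw [Matrix.mulVec_smul, Matrix.mulVec_sub, h1, h2, ← smul_sub, smul_comm]

open Matrix in
theorem lin (z : ℂ) (f : Fin 10 → ℂ) : (z • A) *ᵥ (f ∘ cell) = (z • op f) ∘ cell := by
  rw [Matrix.smul_mulVec, mulVec_lift]
  rfl

open Matrix in
theorem evolve_lin {z μ w : ℂ} {f : Fin 10 → ℂ} (h : op f = μ • f)
    (hw : Complex.exp (z * μ) = w) :
    (NormedSpace.exp (z • A)) *ᵥ (f ∘ cell) = w • (f ∘ cell) := by
  rw [← hw]
  apply FracRev.exp_mulVec_of_eigen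
  rw [lin, h]
  funext v
  simp only [Function.comp_apply, Pi.smul_apply, smul_eq_mul]
  ring

open Matrix in
theorem evolve_quad {z p q w : ℂ} {f : Fin 10 → ℂ}
    (h : op (op f) = (p + q) • op f + (-(p * q)) • f) (hz : z ≠ 0) (hpq : p ≠ q)
    (hp : Complex.exp (z * p) = w) (hq : Complex.exp (z * q) = w) :
    (NormedSpace.exp (z • A)) *ᵥ (f ∘ cell) = w • (f ∘ cell) := by
  apply exp_quad _ _ (z * p) (z * q) w
  · intro h'
    exact hpq (mul_left_cancel₀ hz h')
  · rw [lin, lin]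
    have hop : op (z • op f) = z • op (op f) := by
      funext c
      simp only [op, Pi.smul_apply, smul_eq_mul, Finset.mul_sum]
      refine Finset.sum_congr rfl fun d _ => Finset.sum_congr rfl fun e _ => ?_
      ring
    rw [hop, h]
    funext v
    simp only [Function.comp_apply, Pi.smul_apply, Pi.sub_apply, Pi.add_apply, smul_eq_mul]
    ring
  · exact hp
  · exact hq

/-- `i √3` -/
noncomputable def r3 : ℂ := Complex.I * (Real.sqrt 3 : ℝ)

theorem r3_sq : r3 ^ 2 = -3 := by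
  unfold r3
  rw [mul_pow, Complex.I_sq, ← Complex.ofReal_pow, Real.sq_sqrt (by norm_num)]
  norm_num

/-- the time `π / (6 √3)` -/
noncomputable def T : ℝ := Real.pi / (6 * Real.sqrt 3)

theorem T_ne : (T : ℂ) ≠ 0 := by
  rw [Ne, Complex.ofReal_eq_zero]
  unfold T
  positivity

theorem T_r3 : (T : ℂ) * (6 * r3) = Real.pi * Complex.I := by
  unfold T r3
  have h3 : ((Real.sqrt 3 : ℝ) : ℂ) ≠ 0 := by
    rw [Ne, Complex.ofReal_eq_zero]
    positivity
  push_cast
  field_simp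

/-- `e^{i π / 3}` -/
theorem exp_two : Complex.exp ((T : ℂ) * (2 * r3)) = (1 + r3) / 2 := by
  have h : (T : ℂ) * (2 * r3) = ((Real.pi / 3 : ℝ) : ℂ) * Complex.I := by
    have := T_r3
    push_cast
    linear_combination this / 3
  rw [h, Complex.exp_mul_I, ← Complex.ofReal_cos, ← Complex.ofReal_sin, Real.cos_pi_div_three,
    Real.sin_pi_div_three, r3]
  push_cast
  ring

theorem exp_two' : Complex.exp ((T : ℂ) * (2 * (-r3))) = (1 - r3) / 2 := by
  have h : (T : ℂ) * (2 * (-r3)) = -((T : ℂ) * (2 * r3)) := by ring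
  rw [h, Complex.exp_neg, exp_two]
  have hs := r3_sq
  apply inv_eq_of_mul_eq_one_right
  linear_combination (-1 / 4) * hs

theorem exp_mul_nat {s w : ℂ} (hs : s ^ 2 = -3) (h : Complex.exp ((T : ℂ) * (2 * s)) = w)
    (hw : w = (1 + s) / 2) :
    Complex.exp ((T : ℂ) * (4 * s)) = (-1 + s) / 2 ∧
      Complex.exp ((T : ℂ) * (-8 * s)) = (-1 + s) / 2 ∧
      Complex.exp ((T : ℂ) * (6 * s)) = -1 ∧ Complex.exp ((T : ℂ) * (-6 * s)) = -1 := by
  subst hw
  have h2 : Complex.exp ((T : ℂ) * (4 * s)) = (-1 + s) / 2 := by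
    have : (T : ℂ) * (4 * s) = T * (2 * s) + T * (2 * s) := by ring
    rw [this, Complex.exp_add, h]
    linear_combination hs / 4
  have h3 : Complex.exp ((T : ℂ) * (6 * s)) = -1 := by
    have : (T : ℂ) * (6 * s) = T * (4 * s) + T * (2 * s) := by ring
    rw [this, Complex.exp_add, h, h2]
    linear_combination hs / 4
  have h3' : Complex.exp ((T : ℂ) * (-6 * s)) = -1 := by
    have : (T : ℂ) * (-6 * s) = -(T * (6 * s)) := by ring
    rw [this, Complex.exp_neg, h3]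
    norm_num
  refine ⟨h2, ?_, h3, h3'⟩
  have : (T : ℂ) * (-8 * s) = T * (-6 * s) + T * (-6 * s) + T * (4 * s) := by ring
  rw [this, Complex.exp_add, Complex.exp_add, h3', h2]
  ring

theorem r3_ne : r3 ≠ 0 := by
  intro h
  have := r3_sq
  rw [h] at this
  norm_num at this

/-- the matrix exponential -/
noncomputable def W : Matrix V V ℂ := NormedSpace.exp ((T : ℂ) • A)

open Matrix in
theorem W_y0 : W *ᵥ (y0 ∘ cell) = (1 : ℂ) • (y0 ∘ cell) := by
  apply evolve_lin (μ := 0)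
  · rw [op_y0, zero_smul]
  · simp

open Matrix in
theorem W_y3 : W *ᵥ (y3 ∘ cell) = (-1 : ℂ) • (y3 ∘ cell) := by
  have hs := r3_sq
  obtain ⟨-, -, h3, h4⟩ := exp_mul_nat hs exp_two rfl
  apply evolve_quad (p := 6 * r3) (q := -6 * r3) _ T_ne _ h3 h4
  · rw [op_y3]
    have : (6 * r3 + -6 * r3) = 0 := by ring
    rw [this, zero_smul, zero_add]
    congr 1
    linear_combination (-36) * hs
  · intro h
    apply r3_ne
    linear_combination h / 12

open Matrix in
theorem W_y1 : W *ᵥ (y1 r3 ∘ cell) = ((1 + r3) / 2) • (y1 r3 ∘ cell) :=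
  evolve_lin (op_y1 r3_sq) exp_two

open Matrix in
theorem W_y1' : W *ᵥ (y1 (-r3) ∘ cell) = ((1 - r3) / 2) • (y1 (-r3) ∘ cell) :=
  evolve_lin (op_y1 (by rw [neg_sq, r3_sq])) exp_two'

open Matrix in
theorem W_y2 : W *ᵥ (y2 r3 ∘ cell) = ((-1 + r3) / 2) • (y2 r3 ∘ cell) := by
  have hs := r3_sq
  obtain ⟨h1, h2, -, -⟩ := exp_mul_nat hs exp_two rfl
  apply evolve_quad (p := 4 * r3) (q := -8 * r3) _ T_ne _ h1 h2
  · rw [op_y2 hs]
    congr 1
    · congr 1
      ring
    · congr 1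
      linear_combination (-32) * hs
  · intro h
    apply r3_ne
    linear_combination h / 12

open Matrix in
theorem W_y2' : W *ᵥ (y2 (-r3) ∘ cell) = ((-1 - r3) / 2) • (y2 (-r3) ∘ cell) := by
  have hs : (-r3) ^ 2 = -3 := by rw [neg_sq, r3_sq]
  obtain ⟨h1, h2, -, -⟩ := exp_mul_nat hs exp_two' (by ring)
  have h1' : Complex.exp ((T : ℂ) * (4 * (-r3))) = (-1 - r3) / 2 := by rw [h1]; ring
  have h2' : Complex.exp ((T : ℂ) * (-8 * (-r3))) = (-1 - r3) / 2 := by rw [h2]; ring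
  apply evolve_quad (p := 4 * (-r3)) (q := -8 * (-r3)) _ T_ne _ h1' h2'
  · rw [op_y2 hs]
    congr 1
    · congr 1
      ring
    · congr 1
      linear_combination (-32) * hs
  · intro h
    apply r3_ne
    linear_combination -h / 12

/-- the basis vector of the vertex `a_j` -/
def e (j : Fin 6) : V → ℂ := Pi.single (Sum.inl j) 1

theorem e_eq (j : Fin 6) :
    e j = (six (Pi.single j 1)) ∘ cell := by
  funext v
  rcases v with v | v | ⟨v, x, y⟩
  · fin_cases j <;> fin_cases v <;> simp [e, cell, six]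
  · fin_cases j <;> simp [e, cell, six]
  · fin_cases j <;> fin_cases v <;> simp [e, cell, six]

theorem six_decomp (j : Fin 6) (s : ℂ) (hs : s ^ 2 = -3) :
    six (Pi.single j 1) = (1 / 6 : ℂ) • (y0 + ((1 + s) / 2) ^ j.val • y1 s +
      ((1 - s) / 2) ^ j.val • y1 (-s) + ((-1 + s) / 2) ^ j.val • y2 s +
      ((-1 - s) / 2) ^ j.val • y2 (-s) + ((-1 : ℂ) ^ j.val) • y3) := by
  funext c
  have h4 : s ^ 4 = 9 := by
    have : s ^ 4 = (s ^ 2) ^ 2 := by ring
    rw [this, hs]; norm_num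
  have h6 : s ^ 6 = -27 := by
    have : s ^ 6 = (s ^ 2) ^ 3 := by ring
    rw [this, hs]; norm_num
  fin_cases j <;> fin_cases c <;> simp [six, y0, y1, y2, y3] <;> ring_nf <;>
    (try rw [h6]) <;> (try rw [h4]) <;> (try rw [hs]) <;> (try ring)

open Matrix in
theorem W_e (j : Fin 6) : W *ᵥ (e j) = e (j + 1) := by
  have hs := r3_sq
  have hc : ∀ (a : ℂ) (f g : Fin 10 → ℂ), (f + a • g) ∘ cell = f ∘ cell + a • (g ∘ cell) := by
    intro a f g
    rfl
  have hc' : ∀ (a : ℂ) (f : Fin 10 → ℂ), (a • f) ∘ cell = a • (f ∘ cell) := by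
    intro a f
    rfl
  rw [e_eq, e_eq, six_decomp j r3 hs, six_decomp (j + 1) r3 hs]
  simp only [hc, hc', Matrix.mulVec_smul, Matrix.mulVec_add, W_y0, W_y1, W_y1', W_y2, W_y2', W_y3]
  congr 1
  have h6 : ∀ x : ℂ, x ^ 6 = 1 → ∀ i : Fin 6, x ^ (i + 1).val = x ^ i.val * x := by
    intro x hx i
    rw [← pow_succ]
    fin_cases i <;> simp [hx]
  have c1 : ∀ s : ℂ, s ^ 2 = -3 → ((1 + s) / 2) ^ 6 = 1 := by
    intro s hs
    have h : ((1 + s) / 2) ^ 3 = -1 := by
      linear_combination (3 / 8 + s / 8) * hs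
    calc ((1 + s) / 2) ^ 6 = (((1 + s) / 2) ^ 3) ^ 2 := by ring
      _ = 1 := by rw [h]; norm_num
  have c2 : ∀ s : ℂ, s ^ 2 = -3 → ((-1 + s) / 2) ^ 6 = 1 := by
    intro s hs
    have h : ((-1 + s) / 2) ^ 3 = 1 := by
      linear_combination (-3 / 8 + s / 8) * hs
    calc ((-1 + s) / 2) ^ 6 = (((-1 + s) / 2) ^ 3) ^ 2 := by ring
      _ = 1 := by rw [h]; norm_num
  have hsn : (-r3) ^ 2 = -3 := by rw [neg_sq, hs]
  have d1 := c1 (-r3) hsn
  have d2 := c2 (-r3) hsn
  rw [h6 _ (c1 r3 hs) j, h6 _ (c2 r3 hs) j, h6 ((1 - r3) / 2) (by linear_combination d1) j,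
    h6 ((-1 - r3) / 2) (by linear_combination d2) j, h6 (-1 : ℂ) (by norm_num) j]
  simp only [smul_smul, one_smul]

open Matrix in
theorem W_pow_e (m : ℕ) (j : Fin 6) :
    (W ^ m) *ᵥ (e j) = e ((fun i : Fin 6 => i + 1)^[m] j) := by
  induction m with
  | zero => simp
  | succ m ih =>
    rw [pow_succ', ← Matrix.mulVec_mulVec, ih, W_e, Function.iterate_succ_apply']

theorem W_pow (m : ℕ) : W ^ m = NormedSpace.exp (((m * T : ℝ) : ℂ) • A) := by
  unfold W
  rw [← Matrix.exp_nsmul]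
  congr 1
  rw [← Nat.cast_smul_eq_nsmul ℂ, smul_smul]
  push_cast
  rfl

end Pool.Agent.Q3.Mst
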